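import Mathlib
import Pool.Agent.H868R3.PoleMain
import Pool.Agent.Helper33_dom.Field

/-!
# Poles of zeta functions of abelian varieties over finite fields: dominating slopes

Let `q = p ^ a`, and let `π i` be finitely many Weil `q`-numbers which generate CM fields `K i`.
Each of them is of dominant type (the new case), of pair type or of flip type, and embeddings of
`K i` and `K j`, for different `i` and `j`, are cross flipped: some automorphism of the complex
numbers fixes one and conjugates the other.

Dominant type: let `w τ = 2 v (τ (π i)) - a` be the normalised valuations, `τ` running through the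
embeddings of `K i` in the algebraic closure of the `p`-adic numbers. There is `τ₀` with `w τ₀ ≠ 0`
such that the sum of all `|w τ|` is less than `4 |w τ₀|`; or it is equal to `4 |w τ₀|` and `π i` is
not of norm type: there is no subfield `E` of `K i`, different from `K i` and not totally real, such
that for every embedding of `E` the sum of the `w τ` over its extensions `τ` to `K i` is zero.
There is no condition on the Galois group or the degree of `K i`.

Let `A` be any product of powers of the simple abelian varieties over the field with `q` elements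
that correspond to the `π i`, or any abelian variety isogenous to such a product; `V` is its first
`ℓ`-adic cohomology (with coefficients extended to the complex numbers) and `F` the Frobenius.
Then, for all `s > 0`, the zeta function of `A` over the extension of degree `s` has at `z = n` a
pole of order equal to the dimension of the space spanned by the products of `n` classes of
divisors (the classes `y` of degree two with `F y = q y`, by the theorem of Tate), which is the
rank of the group of cycles of codimension `n` modulo numerical equivalence.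
-/

set_option autoImplicit false

namespace Pool.Agent.Results.MP_557161_ag.DominantPoleOrder

open Module NumberField Pool.Agent.H868R3.TwoOdd Pool.Agent.H194R3.CM Pool.Agent.H194R3.Tate
  Pool.Agent.Helper33Dom

/-- `zeta q F z` is the product of the `det (1 - q ^ (-z) F | ⋀ ^ j V) ^ ((-1) ^ (j + 1))`, and
`divisorProducts q F n` is the span of the products of `n` elements `y` of `⋀ ^ 2 V` with
`F y = q y`. -/
theorem result (p : ℕ) [Fact p.Prime] (a : ℕ) (ha : 0 < a) {I : Type} [Finite I] (K : I → Type)
    [∀ i, Field (K i)] [∀ i, NumberField (K i)] [∀ i, IsCMField (K i)]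
    (π : ∀ i, K i) (hgen : ∀ i, IntermediateField.adjoin ℚ {π i} = ⊤)
    (hweil : ∀ i, ∀ φ : K i →+* ℂ, ‖φ (π i)‖ ^ 2 = (p : ℝ) ^ a)
    (hπ : ∀ i, DominantType p a (π i) ∨ PairType p a (π i) ∨ FlipType p a (π i))
    (hcross : ∀ i j, i ≠ j → ∀ (φ : K i →+* ℂ) (ψ : K j →+* ℂ), CrossFlipped φ ψ)
    {V : Type*} [AddCommGroup V] [Module ℂ V] [FiniteDimensional ℂ V] (F : V →ₗ[ℂ] V)
    (hF : Submodule.span ℂ {v : V | ∃ i, ∃ σ : K i →+* ℂ, F v = σ (π i) • v} = ⊤)
    (s : ℕ) (hs : 0 < s) (n : ℕ) :
    meromorphicOrderAt (zeta (((p : ℝ) ^ a) ^ s) (F ^ s)) (n : ℂ) =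
      ((- (finrank ℂ (divisorProducts ((p : ℂ) ^ a) F n) : ℤ) : ℤ) : WithTop ℤ) := by
  have hq : (0 : ℚ) < (p : ℚ) ^ a := pow_pos (by exact_mod_cast (Fact.out : p.Prime).pos) a
  have hp1 : (1 : ℝ) < p := by exact_mod_cast (Fact.out : p.Prime).one_lt
  have hcast : (((p : ℚ) ^ a : ℚ) : ℂ) = (p : ℂ) ^ a := by
    push_cast
    rfl
  have hcast2 : (((p : ℝ) ^ a : ℝ) : ℂ) = (p : ℂ) ^ a := by
    push_cast
    rfl
  have hweil' : ∀ i, ∀ φ : K i →+* ℂ, ‖φ (π i)‖ ^ 2 = (((p : ℚ) ^ a : ℚ) : ℝ) := by
    intro i φ
    rw [hweil i φ]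
    push_cast
    rfl
  rw [← hcast2]
  refine zeta_order_ext ((p : ℝ) ^ a) (one_lt_pow₀ hp1 ha.ne') F
    {μ : ℂ | ∃ i, ∃ σ : K i →+* ℂ, σ (π i) = μ} ?_ ?_ s hs ?_ n
  · rintro _ ⟨i, σ, rfl⟩
    exact hweil i σ
  · rw [← hF]
    congr 1
    ext v
    constructor
    · rintro ⟨μ, ⟨i, σ, rfl⟩, h⟩
      exact ⟨i, σ, h⟩
    · rintro ⟨i, σ, h⟩
      exact ⟨_, ⟨i, σ, rfl⟩, h⟩
  · intro n x hx h
    rw [hcast2] at h ⊢
    rw [← hcast] at h ⊢
    exact ext_of_norel p ((p : ℚ) ^ a) hq π hgen hweil'
      (fun _ => norel_of_family p (fun _ => a) π hweil' hπ hcross)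
      F hF n s hs x hx h

end Pool.Agent.Results.MP_557161_ag.DominantPoleOrder
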