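import Mathlib
import Pool.Agent.Helper793_Prime.KMain

/-!
# The Künneth formula for the orders of poles of zeta functions at integers and half integers

Let `X` and `Y` be smooth projective varieties over the field with `q = p ^ b` elements, of any
kind.  We write `α x` (`x` in `ι`) for the eigenvalues of the Frobenius on the cohomology of `X`,
`deg x` for the degree of the cohomology group in which `α x` occurs, and `β y`, `deg' y` for the
same data of `Y`; then `X × Y` has the eigenvalues `α x * β y` in degree `deg x + deg' y`.  By
Deligne `α x` is a Weil number, it has the absolute value `q ^ (deg x / 2)` in all embeddings, and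
it is either real, `α x ^ 2 = q ^ deg x`, or generates a CM field.

We consider finitely many CM fields `K i` and Weil numbers `π i` in `K i`, and assume that, up to
roots of unity and powers of `p`, the eigenvalues of `X` are products of conjugates of the `π i`
with `i` in a set `S`, and the eigenvalues of `Y` are products of conjugates of the `π i` with `i`
not in `S` (one can always take the non-real eigenvalues, or powers of them, for the `π i`; if `X`
is an abelian variety, or a product of such varieties, curves and K3 surfaces, the eigenvalues in
the degrees one and two suffice).  The only other hypothesis is that the fields `K i`, `i` in `S`,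
and `K j`, `j` not in `S`, are separated in the sense of `MP_557161_ag.SeparatedFactors`: they
contain no common imaginary quadratic field, and either their maximal real subfields have coprime
degrees (both odd, or one of them odd and the other field without imaginary quadratic subfields), or
the maximal real subfield of one of them is linearly disjoint from the Galois closure of the other
one, or one of them has twice a prime number as its degree and is not contained in the Galois
closure of the other one; or all pairs of embeddings are cross flipped.

Then over all sufficiently large extensions of the ground field (the fields with `q ^ N` elements,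
`N` divisible by some `N₀`), and for all `k`,

`ord (X × Y, k / 2) = - ∑ ord (X, i / 2) * ord (Y, j / 2)`, the sum over `i + j = k`,

where `ord (X, s)` is the order of the zeta function of `X` at `s`.  Here `ord (X, i / 2)` with `i`
odd counts the eigenvalues `q ^ (i / 2)` in odd degrees (supersingular elliptic curves have them).

Consequences for Tate's conjecture.  The external products of cycles on `X` and `Y` show that the
rank of `A ^ n (X × Y)` is at least the sum of `rk A ^ a (X) * rk A ^ c (Y)` over `a + c = n`, and
it is at most the order of the pole at `n`.  So if `X` has no eigenvalues of odd degree some power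
of which is a power of `q`, and if `X` and `Y` satisfy Tate's formula over all large extensions of
the ground field, the same holds for `X × Y` (and for the field with `q` elements, by Galois
descent).  It does not matter whether the classes on `X` and `Y` are exotic, that is, not generated
by divisors.  The hypothesis is stable: `X` and `Y` can be replaced by their powers, or by products
of several varieties with the same fields.

The reason is that multiplicative relations between the conjugates of the numbers `π i` split along
separated fields (`relation_split`).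
-/

set_option autoImplicit false

namespace Pool.Agent.Results.MP_557161_ag.KunnethPoles

open NumberField Pool.Agent.Helper793_Prime

/-- The Künneth formula for the orders at `k / 2` of the zeta functions of `X`, `Y` and `X × Y` over
all sufficiently large extensions of the ground field. -/
theorem result (p : ℕ) [Fact p.Prime] (b : ℕ) (hb : 0 < b) {I : Type} [Fintype I] (K : I → Type)
    [∀ i, Field (K i)] [∀ i, NumberField (K i)] [∀ i, IsCMField (K i)]
    (m : I → ℕ) (π : ∀ i, K i) (hint : ∀ i, IsIntegral ℤ (π i))
    (hweil : ∀ i, ∀ φ : K i →+* ℂ, ‖φ (π i)‖ ^ 2 = (p : ℝ) ^ m i)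
    (S : Set I) (hsep : ∀ i ∈ S, ∀ j ∉ S, Separated (K i) (K j))
    {ι κ : Type} [Fintype ι] [Fintype κ]
    (deg : ι → ℕ) (α : ι → ℂ) (hα : ∀ x, ‖α x‖ ^ 2 = ((p : ℝ) ^ b) ^ deg x)
    (hαS : ∀ x, InGroup p π S (α x))
    (deg' : κ → ℕ) (β : κ → ℂ) (hβ : ∀ y, ‖β y‖ ^ 2 = ((p : ℝ) ^ b) ^ deg' y)
    (hβS : ∀ y, InGroup p π Sᶜ (β y)) :
    ∃ N₀ : ℕ, 0 < N₀ ∧ ∀ N : ℕ, 0 < N → N₀ ∣ N → ∃ ordX ordY : ℕ → ℤ,
      (∀ i : ℕ, meromorphicOrderAt (zetaOf (((p : ℝ) ^ b) ^ N) deg (fun x => α x ^ N))
        ((i : ℂ) / 2) = ordX i) ∧
      (∀ j : ℕ, meromorphicOrderAt (zetaOf (((p : ℝ) ^ b) ^ N) deg' (fun y => β y ^ N))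
        ((j : ℂ) / 2) = ordY j) ∧
      ∀ k : ℕ, meromorphicOrderAt (zetaOf (((p : ℝ) ^ b) ^ N)
        (fun z : ι × κ => deg z.1 + deg' z.2) (fun z => (α z.1 * β z.2) ^ N)) ((k : ℂ) / 2) =
        ((-∑ z ∈ Finset.HasAntidiagonal.antidiagonal k, ordX z.1 * ordY z.2 : ℤ) : WithTop ℤ) := by
  have hp1 : (1 : ℝ) < p := by exact_mod_cast (Fact.out : p.Prime).one_lt
  obtain ⟨N₀, hN₀, h⟩ := kunneth_main p b hb m π hint hweil S hsep deg α hα hαS deg' β hβ hβS
  refine ⟨N₀, hN₀, fun N hN hdvd => ?_⟩
  have hq : 1 < ((p : ℝ) ^ b) ^ N := one_lt_pow₀ (one_lt_pow₀ hp1 hb.ne') hN.ne'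
  refine ⟨fun i => (meromorphicOrderAt (zetaOf (((p : ℝ) ^ b) ^ N) deg (fun x => α x ^ N))
    ((i : ℂ) / 2)).untop₀, fun j => (meromorphicOrderAt (zetaOf (((p : ℝ) ^ b) ^ N) deg'
    (fun y => β y ^ N)) ((j : ℂ) / 2)).untop₀, fun i => ?_, fun j => ?_, fun k => ?_⟩
  · simp only [order_zetaOf _ hq, WithTop.untop₀_coe]
  · simp only [order_zetaOf _ hq, WithTop.untop₀_coe]
  · rw [h N hN hdvd k]
    congr 2
    exact (Finset.Nat.sum_antidiagonal_eq_sum_range_succ (fun i j =>
      (meromorphicOrderAt (zetaOf (((p : ℝ) ^ b) ^ N) deg (fun x => α x ^ N))
        ((i : ℂ) / 2)).untop₀ *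
      (meromorphicOrderAt (zetaOf (((p : ℝ) ^ b) ^ N) deg' (fun y => β y ^ N))
        ((j : ℂ) / 2)).untop₀) k).symm

end Pool.Agent.Results.MP_557161_ag.KunnethPoles
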