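import Pool.Agent.H547_r.Pole
import Pool.Agent.H547_n.Odd

/-!
# The orders of all poles of the zeta function on a circle, for products of diagonal hypersurfaces

Let `F` be a finite field with `q` elements of characteristic `p`, let `m` be prime to `p`, and let `X`
be a product of hypersurfaces

  `c_0 (x_0 ^ d - y_0 ^ d) + ... + c_h (x_h ^ d - y_h ^ d) = 0`

over `F`, of arbitrary degrees `d` dividing `m`, arbitrary even dimensions `2 h` and with arbitrary
nonzero coefficients in `F`. There is no condition on `F`, `m`, `p`, on the dimensions and on the number
of the factors (`DiagonalProduct`).

Theorem. For every `i` the order of each pole of the zeta function `Z(X, T)` on the circle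
`|T| = q ^ (- i)` is at most `C = 2 ^ (c - 1)` times the order of the pole at `T = q ^ (- i)` of the part
of the zeta function which belongs to known algebraic classes, that is, at most `C` times the rank of
the group of the cycles of codimension `i` on `X` (over `F`) modulo numerical equivalence. In
particular `- ord ζ(X, s) ≤ C rank A ^ i (X)` at `s = i`. Here `c` is the number of the classes of
linked residues modulo `m`; it is at most `2 ^ r`, where `r` is the number of the odd prime divisors of
`m`, and at most `2 ^ r - 1` if `m` is odd. For `c = 1`, for instance if `m` is a prime power, the order
at `s = i` is the rank (Tate), and it is the largest order of a pole on the line `Re s = i`.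

More precisely, for every `n` the absolute value of the trace of the `n`-th power of the Frobenius on
the part of `H ^ (2 i)(X)(i)` with given slopes (for instance on the Tate classes) is at most `C` times
its trace on the known algebraic part; in particular the latter is not negative.

*Cohomology.* By Weil the cohomology of `X` has the basis `Element`, `IsBasis` of products of powers of
hyperplane classes and of eigenvectors of the group of diagonal automorphisms, and the Frobenius of the
extension with `q ^ n` elements acts on the line of an eigenvector by a product of Gauss sums or moves
it to another line (`frob`). By Stickelberger the eigenvalues have the valuations `slope`; so the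
eigenvalues on different parts are different, and the other parts do not have a pole at the given point
(in the theorem: the part of the zeta function with slopes different from `u` has order zero). Slope
zero are the Tate classes over finite extensions.

*Algebraic classes.* A basis vector of slope zero with even parities (`IsEven`) is known to be
algebraic: the residues belong to the closure (`IsKnown`) of the characters of Fermat surfaces and of
the standard characters (Tate, Shioda-Katsura, Aoki-Shioda). This is the parity theorem of the starting
files (`Pool.Agent.Results.MP_0d42ed_ag.FermatParity`).

*Proof.* The basis vectors are split into the residues `x` of the variables `x_l` and the negatives `z`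
of the residues of the variables `y_l`, and the eigenvalue is `Θ(x)` times the complex conjugate of
`Θ(z)`, over every field `F`, because of the signs in the equation. The trace on the part with given
slopes and parities is a sum over pairs `x`, `z` with `γ(z) = γ(x) - e` for a function `γ` with values
in a group, and such a sum is at most the sum for `e = 0`, by the inequality of Cauchy and Schwarz.
-/

set_option autoImplicit false

namespace Pool.Agent.Results.MP_557161_ag.PolesOnCircle

open Finset Pool.Agent.H547_r

/-- **The orders of the poles on the circle `|T| = q ^ (- i)` are bounded by a constant times the rank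
of the group of algebraic cycles.** -/
theorem result (p m : ℕ) (hp : p.Prime) [NeZero m] (hpm : p.Coprime m) :
    linkClasses p m ≤ 2 ^ (m.primeFactors.erase 2).card ∧
    (Odd m → linkClasses p m ≤ 2 ^ m.primeFactors.card - 1) ∧
    ∀ (F : Type) [Field F] [Fintype F] [CharP F p] (X : DiagonalProduct F m)
      (R : ∀ n, Extension F (n + 1)) (i : ℕ),
      (∀ b : Element X, IsBasis i b → slope p b = 0 → IsEven p b → IsKnown p m (residues b)) ∧
      (∀ (u : (ZMod m)ˣ → ℤ) (n : ℕ),
        ‖trace X R i (fun b => slope p b = u) n‖ ≤ 2 ^ (linkClasses p m - 1) *
          (trace X R i (fun b => slope p b = 0 ∧ IsEven p b) n).re) ∧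
      ∀ (z : ℂ) (u : (ZMod m)ˣ → ℤ) (N N' : ℤ), ‖z‖ = 1 →
        HasPole (zeta X R i (fun _ => True) z) N →
        HasPole (zeta X R i (fun b => slope p b ≠ u) z) 0 →
        HasPole (zeta X R i (fun b => slope p b = 0 ∧ IsEven p b) 1) N' →
        N ≤ 2 ^ (linkClasses p m - 1) * N' := by
  have hm : 0 < m := Nat.pos_of_ne_zero (NeZero.ne m)
  refine ⟨H547_pp.ncard_classes_le (p := p) (Linked p m) fun a b hab => (linked_iff hpm a b).1 hab,
    fun _ => H547_n.ncard_classes_lt (Linked p m) fun a b ha hb h => ⟨ha, hb, Or.inl h⟩, ?_⟩
  intro F _ _ _ X R i
  refine ⟨fun b hb h0 he => known_of_even hp hm hpm hb h0 he,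
    fun u n => trace_le hpm R i n u, ?_⟩
  intro z u N N' hz hN hNn hNg
  have hzn : ∀ n : ℕ, ‖z ^ (n + 1)‖ = 1 := fun n => by rw [norm_pow, hz, one_pow]
  have h := pole_le (t := fun n => trace X R i (fun _ => True) n * z ^ (n + 1))
    (f := fun n => trace X R i (fun b => slope p b = u) n * z ^ (n + 1))
    (n := fun n => trace X R i (fun b => slope p b ≠ u) n * z ^ (n + 1))
    (g := fun n => trace X R i (fun b => slope p b = 0 ∧ IsEven p b) n * 1 ^ (n + 1))
    (C := 2 ^ (linkClasses p m - 1)) (B := Fintype.card (Element X)) (N := N) (N' := N')
    (fun n => by rw [trace_add X R i (fun b => slope p b = u) n, add_mul])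
    (fun n => by
      rw [norm_mul, hzn, mul_one, one_pow, mul_one]
      exact trace_le hpm R i n u)
    (fun n => by
      rw [norm_mul, hzn, mul_one]
      exact norm_trace_le X R i _ n)
    (fun n => by
      rw [norm_mul, hzn, mul_one]
      exact norm_trace_le X R i _ n)
    (fun n => by
      rw [one_pow, mul_one]
      exact norm_trace_le X R i _ n)
    hN hNn hNg
  exact_mod_cast h

end Pool.Agent.Results.MP_557161_ag.PolesOnCircle
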