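import Mathlib
import Pool.Agent.Helper793_Prime.Geom

/-!
# Poles of zeta functions of abelian varieties over finite fields with separated CM fields

Let `A` be an abelian variety over the field with `q = p ^ b` elements, of any dimension.  Over an
algebraic closure `A` is isogenous to a product of supersingular elliptic curves and of powers of
finitely many simple abelian varieties `A i` which are not supersingular; `A i` is given by a Weil
`p ^ a i`-number `π i` in a CM field `K i` (the centre of the endomorphism algebra).  Write `n i`
for the degree of the maximal real subfield of `K i`.  We assume

* (`Separated`) for `i ≠ j`, `K i` and `K j` contain no common imaginary quadratic field, and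
  - `n i` and `n j` are coprime and both odd (or one of them is odd and the other field contains
    no imaginary quadratic field), or
  - `n i` (or `n j`) is a prime number and `K i` (or `K j`) is not contained in the Galois closure
    of the other field, or
  - the maximal real subfield of one of the fields is linearly disjoint from the Galois closure of
    the other one (for instance equal to `ℚ`);
  or (with or without common quadratic fields) all embeddings of `K i` and `K j` are cross flipped;
* (`PrimeType`) `n i` is `1`, `2` or a prime number, and `π i` is not of Weil type if `n i` is odd
  and different from `1`; or (`MaximalAngleRank`) `n i` is arbitrary and the angle rank of `π i` is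
  the maximal one, `n i` (in other words, the formula below holds, with divisor classes, for the
  powers of `A i`).

There is no condition on the slopes, the Galois groups, the multiplicities of the factors, the
supersingular part and the form of `A` over the finite field.  Then, for all integers `n`, the zeta
function of `A` has at `n` a pole of order equal to the dimension of the space of the Frobenius
invariant classes of codimension `n` in the ring generated by the divisor classes over the algebraic
closure.  By theorems of Tate this dimension is the rank of the group of cycles of codimension `n`
on `A` modulo numerical equivalence.

For instance all this holds if the simple factors `A i` over the algebraic closure have different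
prime numbers `n i` (or `n i = 1`), are not of Weil type, and no imaginary quadratic field is
contained in two of the fields, provided that the field `K i` with `n i = 2` (if there is one)
contains no imaginary quadratic field.

The main point is that the multiplicative relations between the Frobenius eigenvalues of all the
`A i` split into relations for one `i`.  If an embedding `x` of `K i` and an embedding `y` of `K j`
are not cross flipped and `n i`, `n j` are coprime, then there is a function `F x y = ± 1` on all
pairs of embeddings, invariant under the Galois group and antisymmetric in `x` and in `y`, and the
products of `F x y` over halves of the embeddings give the same quadratic character for `K i` and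
`K j`, that is, a common imaginary quadratic field.
-/

set_option autoImplicit false

namespace Pool.Agent.Results.MP_557161_ag.SeparatedFactors

open Module NumberField Pool.Agent.H868R3.TwoOdd Pool.Agent.Helper793_Prime

/-- `V` is the first cohomology of `A`, with coefficients extended to the complex numbers, and `F`
is the Frobenius; `zeta q F z` is the product of the
`det (1 - q ^ (-z) F | ⋀ ^ j V) ^ ((-1) ^ (j + 1))`. -/
theorem result (p : ℕ) [Fact p.Prime] (b : ℕ) (hb : 0 < b) {I : Type} [Finite I] (K : I → Type)
    [∀ i, Field (K i)] [∀ i, NumberField (K i)] [∀ i, IsCMField (K i)]
    (hsep : ∀ i j, i ≠ j → Separated (K i) (K j))
    (a : I → ℕ) (ha : ∀ i, 0 < a i) (π : ∀ i, K i) (hint : ∀ i, IsIntegral ℤ (π i))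
    (hweil : ∀ i, ∀ φ : K i →+* ℂ, ‖φ (π i)‖ ^ 2 = (p : ℝ) ^ a i)
    (htype : ∀ i, PrimeType p (a i) (π i) ∨ MaximalAngleRank (π i))
    {V : Type*} [AddCommGroup V] [Module ℂ V] [FiniteDimensional ℂ V] (F : V →ₗ[ℂ] V)
    (hF : Submodule.span ℂ {v : V | ∃ μ : ℂ, GeometricEigenvalue p b a π μ ∧ F v = μ • v} = ⊤)
    (n : ℕ) :
    meromorphicOrderAt (zeta ((p : ℝ) ^ b) F) (n : ℂ) =
      ((- (finrank ℂ (algebraicClasses ((p : ℂ) ^ b) F n) : ℤ) : ℤ) : WithTop ℤ) :=
  pole_of_norel p b hb a ha π hweil (fun _ => norel_separated p a π hint
    (fun i φ => by rw [hweil i φ]; push_cast; rfl) htype hsep) F hF n

end Pool.Agent.Results.MP_557161_ag.SeparatedFactors
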